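import Mathlib
import Pool.Agent.U214.Kn.Final

set_option autoImplicit false

/-!
The number of domino tilings of the Aztec diamond of order `n` from which the two unit squares
with the centres `(-1/2, -1/2)` and `(1/2, 3/2)` are removed, for every `n ≥ 2`.
-/

namespace Pool.Agent.Results.MP_b90a94_co.KnightsMove

open Pool.Agent.Helper848 Pool.Agent.U214.Kn

/-- With `c m = binom(2m, m) / 4^m`, the number of domino tilings of the region of order
`4m + 2`, `4m + 3` (for `m ≥ 0`) and `4m`, `4m + 1` (for `m ≥ 1`). -/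
theorem result (m : ℕ) :
    (numTilings (region (4 * m + 2)) : ℚ) =
      2 ^ ((2 * m + 1) * (4 * m + 3)) * ((2 * m + 1) * c m ^ 2 / 4) ∧
    (numTilings (region (4 * m + 3)) : ℚ) =
      2 ^ ((4 * m + 3) * (2 * m + 2)) * ((2 * m + 1) ^ 2 * c m ^ 2 / (8 * (m + 1))) ∧
    (1 ≤ m → (numTilings (region (4 * m)) : ℚ) =
      2 ^ (2 * m * (4 * m + 1)) * (m * c m ^ 2 * (1 + c m ^ 2) / 2)) ∧
    (1 ≤ m → (numTilings (region (4 * m + 1)) : ℚ) =
      2 ^ ((4 * m + 1) * (2 * m + 1)) * ((2 * m + 1) * c m ^ 2 * (1 - c m ^ 2) / 4)) :=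
  ⟨main2 m, main3 m, fun hm => main0 m hm, fun hm => main1 m hm⟩

end Pool.Agent.Results.MP_b90a94_co.KnightsMove
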